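import Pool.Agent.Lib.MP_28303a_al.TW.Lemmas

/-! # RCI: transport of regular coherence -/

set_option autoImplicit false
set_option linter.unusedSectionVars false
set_option linter.unusedVariables false

namespace Pool.Agent.NegK.TW.H89

universe u v w

open Matrix MonoidAlgebra

section

variable {A B : Type u} [Ring A] [Ring B]

theorem hasFPRes_semi (σ : A →+* B) (σ' : B →+* A) [RingHomInvPair σ σ'] [RingHomInvPair σ' σ]
    (n : ℕ) : ∀ (M N : Type u) [AddCommGroup M] [Module A M] [AddCommGroup N] [Module B N]
      (e : M ≃ₛₗ[σ] N), HasFPRes A n M → HasFPRes B n N := by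
  induction n with
  | zero =>
    intro M N _ _ _ _ e h
    obtain ⟨h1, h2⟩ := h
    exact ⟨Module.Finite.of_surjective e.toLinearMap e.surjective, Module.Projective.of_equiv e⟩
  | succ n ih =>
    intro M N _ _ _ _ e h
    obtain ⟨P, hP1, hP2, f, h1, h2, h3, h4⟩ := h
    let _ : Module B P := Module.compHom P σ'
    have hsm : ∀ (b : B) (x : P), b • x = σ' b • x := fun _ _ => rfl
    have hsm' : ∀ (a : A) (x : P), a • x = σ a • x := by
      intro a x
      rw [hsm, RingHomInvPair.comp_apply_eq]
    let i : P ≃ₛₗ[σ] P :=
      { toFun := id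
        invFun := id
        left_inv := fun _ => rfl
        right_inv := fun _ => rfl
        map_add' := fun _ _ => rfl
        map_smul' := fun a x => hsm' a x }
    let g : P →ₗ[B] N :=
      { toFun := fun x => e (f x)
        map_add' := fun x y => by rw [map_add, map_add]
        map_smul' := fun b x => by
          rw [hsm, map_smul, LinearEquiv.map_smulₛₗ, RingHomInvPair.comp_apply_eq₂]
          rfl }
    refine ⟨P, hP1, inferInstance, g, ?_, ?_, ?_, ?_⟩
    · exact Module.Finite.of_surjective (σ := σ) i.toLinearMap i.surjective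
    · exact Module.Projective.of_equiv i
    · exact e.surjective.comp h3
    · have hk : ∀ x : P, x ∈ LinearMap.ker f ↔ x ∈ LinearMap.ker g := by
        intro x
        rw [LinearMap.mem_ker, LinearMap.mem_ker]
        show f x = 0 ↔ e (f x) = 0
        exact (LinearEquiv.map_eq_zero_iff e).symm
      refine ih (LinearMap.ker f) (LinearMap.ker g) ?_ h4
      exact
        { toFun := fun x => ⟨x.1, (hk _).1 x.2⟩
          invFun := fun x => ⟨x.1, (hk _).2 x.2⟩
          left_inv := fun _ => rfl
          right_inv := fun _ => rfl
          map_add' := fun _ _ => rfl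
          map_smul' := fun a x => Subtype.ext (hsm' a x.1) }

end

theorem regCoh_of_equiv (A B : Type u) [Ring A] [Ring B] (φ : A ≃+* B) (h : RegCoh A) :
    RegCoh B := by
  intro n N hN
  let σ : A →+* B := φ
  let σ' : B →+* A := φ.symm
  let i1 : RingHomInvPair σ σ' := RingHomInvPair.of_ringEquiv φ
  let i2 : RingHomInvPair σ' σ := RingHomInvPair.of_ringEquiv φ.symm
  let N' : Submodule A (Fin n → A) :=
    { carrier := {x | (fun i => σ (x i)) ∈ N}
      add_mem' := fun {x y} hx hy => by
        have : (fun i => σ ((x + y) i)) = (fun i => σ (x i)) + fun i => σ (y i) :=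
          funext fun i => map_add σ _ _
        show (fun i => σ ((x + y) i)) ∈ N
        rw [this]
        exact N.add_mem hx hy
      zero_mem' := by
        have : (fun i => σ ((0 : Fin n → A) i)) = 0 := funext fun i => map_zero σ
        show (fun i => σ ((0 : Fin n → A) i)) ∈ N
        rw [this]
        exact N.zero_mem
      smul_mem' := fun a x hx => by
        have : (fun i => σ ((a • x) i)) = σ a • fun i => σ (x i) :=
          funext fun i => map_mul σ _ _
        show (fun i => σ ((a • x) i)) ∈ N
        rw [this]
        exact N.smul_mem _ hx }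
  let E : N' ≃ₛₗ[σ] N :=
    { toFun := fun x => ⟨fun i => σ (x.1 i), x.2⟩
      invFun := fun y => ⟨fun i => σ' (y.1 i), by
        show (fun i => σ (σ' (y.1 i))) ∈ N
        have : (fun i => σ (σ' (y.1 i))) = y.1 :=
          funext fun i => RingHomInvPair.comp_apply_eq₂
        rw [this]
        exact y.2⟩
      left_inv := fun x => Subtype.ext (funext fun i => RingHomInvPair.comp_apply_eq)
      right_inv := fun y => Subtype.ext (funext fun i => RingHomInvPair.comp_apply_eq₂)
      map_add' := fun x y => Subtype.ext (funext fun i => map_add σ _ _)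
      map_smul' := fun a x => Subtype.ext (funext fun i => map_mul σ _ _) }
  have hf : Module.Finite B N := Module.Finite.iff_fg.2 hN
  have hf' : Module.Finite A N' := Module.Finite.of_surjective E.symm.toLinearMap E.symm.surjective
  obtain ⟨d, hd⟩ := h n N' (Module.Finite.iff_fg.1 hf')
  exact ⟨d, hasFPRes_semi σ σ' d _ _ E hd⟩

theorem rci : RciStatement.{u} := by
  refine ⟨regCoh_of_equiv, ?_⟩
  intro k Γ D _ _ _ c h hc
  exact regCoh_of_equiv _ _
    (MonoidAlgebra.mapDomainRingEquiv k (MulAction.stabilizerEquivStabilizer (g := h) rfl)) hc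

end Pool.Agent.NegK.TW.H89
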