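import Pool.Agent.Lib.MP_28303a_al.TW.Lemmas

/-! # DEFO: nilpotent matrices and polynomial deformations -/

set_option autoImplicit false
set_option linter.unusedSectionVars false
set_option linter.unusedVariables false

namespace Pool.Agent.NegK.TW.H89

universe u v w

open Matrix MonoidAlgebra

section

variable {k : Type u} [Ring k] {G : Type u} [Group G]

/-- The evaluation at a central integer. -/
noncomputable def evl (k : Type u) [Ring k] (a : k) (h : ∀ x : k, Commute x a) :
    Polynomial k →+* k := Polynomial.eval₂RingHom' (RingHom.id k) a h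

theorem evl_C (a : k) (h : ∀ x : k, Commute x a) (r : k) : evl k a h (Polynomial.C r) = r := by
  show Polynomial.eval₂ (RingHom.id k) a (Polynomial.C r) = r
  rw [Polynomial.eval₂_C]
  rfl

theorem evl_X (a : k) (h : ∀ x : k, Commute x a) : evl k a h Polynomial.X = a := by
  show Polynomial.eval₂ (RingHom.id k) a Polynomial.X = a
  rw [Polynomial.eval₂_X]

/-- The variable `t` in `k[t][s, s⁻¹][G]`. -/
noncomputable def tEl (k G : Type u) [Ring k] [Group G] : LG (Polynomial k) G :=
  single 1 (AddMonoidAlgebra.single (0 : ℤ) Polynomial.X)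

theorem tEl_comm (x : LG (Polynomial k) G) : tEl k G * x = x * tEl k G := by
  have h1 : ∀ y : LaurentPolynomial (Polynomial k),
      (AddMonoidAlgebra.single (0 : ℤ) Polynomial.X : LaurentPolynomial (Polynomial k)) * y =
        y * AddMonoidAlgebra.single (0 : ℤ) Polynomial.X := by
    intro y
    induction y using AddMonoidAlgebra.induction_linear with
    | zero => rw [mul_zero, zero_mul]
    | add x y hx hy => rw [mul_add, add_mul, hx, hy]
    | single n r =>
      rw [AddMonoidAlgebra.single_mul_single, AddMonoidAlgebra.single_mul_single, zero_add,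
        add_zero, Polynomial.X_mul]
  unfold tEl
  ext g
  rw [MonoidAlgebra.coeff_single_mul_apply, MonoidAlgebra.coeff_mul_single_apply, h1]
  simp only [inv_one, one_mul, mul_one]

theorem lmap_single {A B : Type u} [Ring A] [Ring B] (f : A →+* B) (n : ℤ) (r : A) :
    lmap f (AddMonoidAlgebra.single n r) = AddMonoidAlgebra.single n (f r) :=
  AddMonoidAlgebra.mapRingHom_single _ _ _

theorem tEl_map (a : k) (h : ∀ x : k, Commute x a) :
    cmap G (lmap (evl k a h)) (tEl k G) = single 1 (AddMonoidAlgebra.single (0 : ℤ) a) := by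
  unfold tEl
  rw [cmap_single, lmap_single, evl_X]

theorem cmap_comp {k₁ k₂ k₃ : Type u} [Ring k₁] [Ring k₂] [Ring k₃] (f : k₂ →+* k₃)
    (g : k₁ →+* k₂) : (cmap G f).comp (cmap G g) = cmap G (f.comp g) := by
  refine MonoidAlgebra.ringHom_ext (fun r => ?_) (fun a => ?_)
  · simp only [RingHom.comp_apply, cmap_single]
  · simp only [RingHom.comp_apply, cmap_single]

theorem lmap_comp {k₁ k₂ k₃ : Type u} [Ring k₁] [Ring k₂] [Ring k₃] (f : k₂ →+* k₃)
    (g : k₁ →+* k₂) : (lmap f).comp (lmap g) = lmap (f.comp g) := by
  refine RingHom.ext fun x => ?_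
  induction x using AddMonoidAlgebra.induction_linear with
  | zero => rw [map_zero, map_zero]
  | add x y hx hy => rw [map_add, map_add, hx, hy]
  | single n r => rw [RingHom.comp_apply, lmap_single, lmap_single, lmap_single]; rfl

theorem cmap_id : cmap G (RingHom.id k) = RingHom.id _ := by
  refine MonoidAlgebra.ringHom_ext (fun r => ?_) (fun a => ?_)
  · rw [cmap_single]; rfl
  · rw [cmap_single]; rfl

theorem lmap_id' : lmap (RingHom.id k) = RingHom.id _ := by
  refine RingHom.ext fun x => ?_
  induction x using AddMonoidAlgebra.induction_linear with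
  | zero => rw [map_zero, map_zero]
  | add x y hx hy => rw [map_add, map_add, hx, hy]
  | single n r => rw [lmap_single]; rfl

end

theorem defo : DefoStatement.{u} := by
  intro S k G _ _ hN J _ _ m hm
  -- the deformed matrix
  let m' : Matrix J J (LG (Polynomial k) G) := m.map (cmap G (lmap (Polynomial.C : k →+* Polynomial k)))
  let tt : Matrix J J (LG (Polynomial k) G) := Matrix.diagonal fun _ => tEl k G
  have hm' : IsNilpotent m' :=
    hm.map (cmap G (lmap (Polynomial.C : k →+* Polynomial k))).mapMatrix
  have hc : Commute tt m' := by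
    show tt * m' = m' * tt
    ext1 i j
    rw [Matrix.diagonal_mul, Matrix.mul_diagonal]
    exact tEl_comm _
  have hnil : IsNilpotent (tt * m') := hc.isNilpotent_mul_left hm'
  have hu : IsUnit (1 - tt * m') := hnil.isUnit_one_sub
  obtain ⟨z, hz⟩ := hN ((gdet S (Polynomial k) G).val (1 - tt * m'))
  have key : ∀ (a : k) (h : ∀ x : k, Commute x a),
      (gdet S k G).val ((1 - tt * m').map (cmap G (lmap (evl k a h)))) = z := by
    intro a h
    have h1 := gdet_coeff S (evl k a h) (1 - tt * m') hu
    rw [h1, ← hz, k0_map_map, cmap_comp]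
    have h2 : (evl k a h).comp Polynomial.C = RingHom.id k := RingHom.ext fun r => evl_C a h r
    rw [h2, cmap_id, k0_map_id]
  have hmm : ∀ (a : k) (h : ∀ x : k, Commute x a),
      m'.map (cmap G (lmap (evl k a h))) = m := by
    intro a h
    have h2 : (evl k a h).comp Polynomial.C = RingHom.id k := RingHom.ext fun r => evl_C a h r
    have h3 : (cmap G (lmap (evl k a h))).comp
        (cmap G (lmap (Polynomial.C : k →+* Polynomial k))) = RingHom.id (LG k G) := by
      rw [cmap_comp, lmap_comp, h2, lmap_id', cmap_id]
    ext1 i j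
    exact RingHom.congr_fun h3 (m i j)
  have hval : ∀ (a : k) (h : ∀ x : k, Commute x a),
      (1 - tt * m').map (cmap G (lmap (evl k a h))) =
        1 - (Matrix.diagonal fun _ => single 1 (AddMonoidAlgebra.single (0 : ℤ) a)) * m := by
    intro a h
    have e1 : ((1 : Matrix J J (LG (Polynomial k) G)) - tt * m').map (cmap G (lmap (evl k a h))) =
        (cmap G (lmap (evl k a h))).mapMatrix (1 - tt * m') := rfl
    rw [e1, map_sub, map_one, map_mul]
    have e2 : (cmap G (lmap (evl k a h))).mapMatrix m' = m := hmm a h
    have e3 : (cmap G (lmap (evl k a h))).mapMatrix tt =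
        Matrix.diagonal fun _ => single 1 (AddMonoidAlgebra.single (0 : ℤ) a) := by
      show (Matrix.diagonal fun _ => tEl k G).map (cmap G (lmap (evl k a h))) = _
      rw [Matrix.diagonal_map (map_zero _)]
      simp only [tEl_map]
    rw [e2, e3]
  have z0 : z = 0 := by
    rw [← key 0 (fun x => Commute.zero_right x), hval]
    have : (Matrix.diagonal fun _ : J => (single 1 (AddMonoidAlgebra.single (0 : ℤ) (0 : k)) :
        LG k G)) = 0 := by
      rw [AddMonoidAlgebra.single_zero, MonoidAlgebra.single_zero, Matrix.diagonal_zero]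
    rw [this, Matrix.zero_mul, sub_zero]
    exact (gdet S k G).val_one
  have h1 := key 1 (fun x => Commute.one_right x)
  rw [hval] at h1
  have : (Matrix.diagonal fun _ : J => (single 1 (AddMonoidAlgebra.single (0 : ℤ) (1 : k)) :
      LG k G)) = 1 := Matrix.diagonal_one
  rw [this, Matrix.one_mul] at h1
  rw [h1, z0]

end Pool.Agent.NegK.TW.H89
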