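import Pool.Agent.Lib.MP_28303a_al.TW.Lemmas

/-! # LETT1: letters are closed under products -/

set_option autoImplicit false
set_option linter.unusedSectionVars false
set_option linter.unusedVariables false

namespace Pool.Agent.NegK.TW.H89

universe u v w

open Matrix MonoidAlgebra

theorem orb_invar (Γ : Type u) [Group Γ] {D : Type u} [MulAction Γ D] (a b : D) :
    Invar Γ (Orb Γ a b) := by
  rintro g c c' ⟨h, rfl, rfl⟩
  exact ⟨g * h, mul_smul _ _ _, mul_smul _ _ _⟩

theorem sup_false {k : Type u} [Ring k] {Γ : Type u} [Group Γ] {D D' : Type u} [MulAction Γ D]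
    [MulAction Γ D'] {J J' : Type} {dg : J → D} {dg' : J' → D'}
    {M : Matrix J J' (MonoidAlgebra k Γ)} (h : Sup dg dg' (fun _ _ => False) M) : M = 0 := by
  ext1 i j
  ext g
  by_contra hc
  exact h i j g hc

theorem transGen_smul {Γ : Type u} [Group Γ] {D : Type u} [MulAction Γ D] (R : GRel Γ D) (g : Γ)
    {a b : D} (h : Relation.TransGen R.R a b) : Relation.TransGen R.R (g • a) (g • b) := by
  induction h with
  | single h => exact Relation.TransGen.single (R.inv g _ _ h)
  | tail _ h2 ih => exact ih.tail (R.inv g _ _ h2)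

theorem lett1 : Lett1Statement.{u} := by
  intro k Γ D _ _ _ J _ _ dg R m m' hm hm'
  rcases hm with rfl | ⟨a, b, hab, hst, hs⟩
  · exact Or.inl (Matrix.zero_mul _)
  rcases hm' with rfl | ⟨a', b', hab', hst', hs'⟩
  · exact Or.inl (Matrix.mul_zero _)
  by_cases hh : ∃ h₀ : Γ, h₀ • a' = b
  · obtain ⟨h₀, h0⟩ := hh
    refine Or.inr ⟨a, h₀ • b', ?_, ?_, ?_⟩
    · refine hab.trans ?_
      rw [← h0]
      exact transGen_smul R h₀ hab'
    · rw [MulAction.stabilizer_smul_eq_stabilizer_map_conj, ← hst',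
        ← MulAction.stabilizer_smul_eq_stabilizer_map_conj, h0, hst]
    · refine Sup.mul (orb_invar Γ a' b') ?_ hs hs'
      rintro x y z ⟨h, rfl, rfl⟩ ⟨h', h1, rfl⟩
      refine ⟨h, rfl, ?_⟩
      have h2 : (h * h₀)⁻¹ * h' ∈ MulAction.stabilizer Γ a' := by
        rw [MulAction.mem_stabilizer_iff, mul_smul, h1, ← h0, ← mul_smul h h₀ a', inv_smul_smul]
      rw [hst', MulAction.mem_stabilizer_iff, mul_smul, inv_smul_eq_iff, mul_smul] at h2
      exact h2.symm
  · left
    refine sup_false (dg := dg) (dg' := dg) (Sup.mul (orb_invar Γ a' b') ?_ hs hs')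
    rintro x y z ⟨h, rfl, rfl⟩ ⟨h', h1, rfl⟩
    exact hh ⟨h⁻¹ * h', by rw [mul_smul, h1, inv_smul_smul]⟩

end Pool.Agent.NegK.TW.H89
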