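import Pool.Agent.Lib.MP_28303a_al.NK.H91.Stab
import Pool.Agent.Lib.MP_28303a_al.TW.Lemmas

/-! # GCONJ: idempotent matrices in the image of `K₀` become conjugate to constant ones -/

set_option autoImplicit false
set_option linter.unusedSectionVars false
set_option linter.unusedVariables false

namespace Pool.Agent.NegK.TW.H89

universe u v w

open Matrix
open Pool.Agent.NegK.H91

section

variable {A B : Type u} [Ring A] [Ring B]
variable {ι κ : Type} [Fintype ι] [DecidableEq ι] [Fintype κ] [DecidableEq κ]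

/-- Equivalent idempotents are conjugate by an involution after adding zeros. -/
theorem conj_of_meq {e : Matrix ι ι B} {P : Matrix κ κ B} (he : e * e = e) (hPP : P * P = P)
    (h : MEq e P) : ∃ G : Matrix (ι ⊕ κ) (ι ⊕ κ) B, G * G = 1 ∧
      G * fromBlocks e 0 0 0 * G = fromBlocks 0 0 0 P := by
  obtain ⟨a, b, hab, hba, hea, haP, hPb, hbe⟩ : ∃ (a : Matrix ι κ B)
      (b : Matrix κ ι B), a * b = e ∧ b * a = P ∧ e * a = a ∧ a * P = a ∧
        P * b = b ∧ b * e = b := by
    obtain ⟨a, b, hab, hba⟩ := h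
    refine ⟨e * a * P, P * b * e, ?_, ?_, ?_, ?_, ?_, ?_⟩
    · calc e * a * P * (P * b * e) = e * a * (P * P) * b * e := by simp only [Matrix.mul_assoc]
        _ = e * (a * b) * (a * b) * e := by rw [hPP, ← hba]; simp only [Matrix.mul_assoc]
        _ = e := by rw [hab, he, he, he]
    · calc P * b * e * (e * a * P) = P * b * (e * e) * a * P := by simp only [Matrix.mul_assoc]
        _ = P * (b * a) * (b * a) * P := by rw [he, ← hab]; simp only [Matrix.mul_assoc]
        _ = P := by rw [hba, hPP, hPP, hPP]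
    · rw [← Matrix.mul_assoc, ← Matrix.mul_assoc, he]
    · rw [Matrix.mul_assoc, hPP]
    · rw [← Matrix.mul_assoc, ← Matrix.mul_assoc, hPP]
    · rw [Matrix.mul_assoc, he]
  refine ⟨fromBlocks (1 - e) a b (1 - P), ?_, ?_⟩
  · rw [Matrix.fromBlocks_multiply, ← Matrix.fromBlocks_one, Matrix.fromBlocks_inj]
    refine ⟨?_, ?_, ?_, ?_⟩
    · rw [hab, idem_compl he, sub_add_cancel]
    · rw [Matrix.sub_mul, Matrix.mul_sub, Matrix.one_mul, Matrix.mul_one, hea, haP, sub_self,
        add_zero]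
    · rw [Matrix.sub_mul, Matrix.mul_sub, Matrix.one_mul, Matrix.mul_one, hbe, hPb, sub_self,
        add_zero]
    · rw [hba, idem_compl hPP, add_sub_cancel]
  · rw [Matrix.fromBlocks_multiply, Matrix.fromBlocks_multiply, Matrix.fromBlocks_inj]
    have t1 : (1 - e) * e = 0 := by rw [sub_mul, one_mul, he, sub_self]
    refine ⟨?_, ?_, ?_, ?_⟩
    · simp [t1]
    · simp [t1]
    · simp only [Matrix.mul_zero, add_zero, Matrix.zero_mul, hbe]
      rw [Matrix.mul_sub, Matrix.mul_one, hbe, sub_self]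
    · simp only [Matrix.mul_zero, add_zero, Matrix.zero_mul, hbe]
      exact hba

/-- The zero idempotent of size `t`. -/
def zr (A : Type u) [Ring A] (t : ℕ) : Idem A where
  n := t
  e := 0
  idem := Matrix.mul_zero _

theorem equiv_zr (p : Idem A) (t : ℕ) : p.Equiv (p.sum (zr A t)) := by
  refine MEq.trans p.idem (p.sum (zr A t)).idem ?_ (sum_meq p (zr A t))
  show MEq p.e (fromBlocks p.e 0 0 (0 : Matrix (Fin t) (Fin t) A))
  refine ⟨Matrix.fromCols p.e (0 : Matrix (Fin p.n) (Fin t) A),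
    Matrix.fromRows p.e (0 : Matrix (Fin t) (Fin p.n) A), ?_, ?_⟩
  · rw [Matrix.fromCols_mul_fromRows, p.idem, Matrix.mul_zero, add_zero]
  · rw [Matrix.fromRows_mul_fromCols, p.idem]
    simp

theorem one_map (f : A →+* B) (r : ℕ) : (one A r).map f = one B r := by
  show Idem.mk r ((1 : Matrix (Fin r) (Fin r) A).map f) _ = Idem.mk r 1 _
  congr 1
  exact Matrix.map_one _ (map_zero f) (map_one f)

theorem compl_map (f : A →+* B) (q : Idem A) : (compl q).map f = compl (q.map f) := by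
  have h1 : (1 - q.e).map f = 1 - q.e.map f := by
    rw [Matrix.map_sub _ (map_sub f), Matrix.map_one _ (map_zero f) (map_one f)]
  unfold H91.compl Idem.map
  simp only [h1]

/-- The last step: reindexing. -/
theorem gconj_fin (f : A →+* B) {n n' : ℕ} {e : Matrix ι ι B} (he : e * e = e)
    (R : Matrix (Fin n') (Fin n') A) (hR : R * R = R)
    (h : MEq (fromBlocks e 0 0 (1 : Matrix (Fin n) (Fin n) B)) (R.map f)) :
    ∃ (e₀ : Matrix (ι ⊕ (Fin n ⊕ Fin n')) (ι ⊕ (Fin n ⊕ Fin n')) A)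
      (U W : Matrix (ι ⊕ (Fin n ⊕ Fin n')) (ι ⊕ (Fin n ⊕ Fin n')) B), e₀ * e₀ = e₀ ∧
      U * W = 1 ∧ W * U = 1 ∧
      U * fromBlocks e 0 0 (fromBlocks 1 0 0 0) * W = e₀.map f := by
  have he1 : fromBlocks e 0 0 (1 : Matrix (Fin n) (Fin n) B) *
      fromBlocks e 0 0 1 = fromBlocks e 0 0 1 := idem_blocks he (one_mul 1)
  have hR' : R.map f * R.map f = R.map f := by rw [← Matrix.map_mul, hR]
  obtain ⟨G, hG, hGE⟩ := conj_of_meq he1 hR' h
  let σ : ι ⊕ (Fin n ⊕ Fin n') ≃ (ι ⊕ Fin n) ⊕ Fin n' := (Equiv.sumAssoc _ _ _).symm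
  let e₀ : Matrix ((ι ⊕ Fin n) ⊕ Fin n') ((ι ⊕ Fin n) ⊕ Fin n') A := fromBlocks 0 0 0 R
  have hi₀ : e₀ * e₀ = e₀ := idem_blocks (Matrix.mul_zero _) hR
  refine ⟨e₀.submatrix σ σ, G.submatrix σ σ, G.submatrix σ σ, ?_, ?_, ?_, ?_⟩
  · rw [Matrix.submatrix_mul_equiv, hi₀]
  · rw [Matrix.submatrix_mul_equiv, hG, Matrix.submatrix_one_equiv]
  · rw [Matrix.submatrix_mul_equiv, hG, Matrix.submatrix_one_equiv]
  · have s1 : fromBlocks e 0 0 (fromBlocks (1 : Matrix (Fin n) (Fin n) B)
        0 0 (0 : Matrix (Fin n') (Fin n') B)) =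
        (fromBlocks (fromBlocks e 0 0 1) 0 0 0).submatrix σ σ := by
      ext i j
      rcases i with i | i | i <;> rcases j with j | j | j <;> rfl
    rw [s1, Matrix.submatrix_mul_equiv, Matrix.submatrix_mul_equiv, hGE]
    have s2 : (e₀.submatrix σ σ).map f = (e₀.map f).submatrix σ σ := rfl
    rw [s2]
    congr 1
    show _ = (fromBlocks (0 : Matrix (ι ⊕ Fin n) (ι ⊕ Fin n) A) 0 0 R).map f
    rw [Matrix.fromBlocks_map, Matrix.map_zero _ (map_zero f), Matrix.map_zero _ (map_zero f),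
      Matrix.map_zero _ (map_zero f)]

end

theorem gconj : GconjStatement.{u} := by
  intro A B _ _ f hf ι _ _ e he
  obtain ⟨z, hz⟩ := hf (K0.cls (toIdem e he))
  obtain ⟨p, q, rfl⟩ := exists_sub z
  rw [map_sub, K0.map_cls, K0.map_cls] at hz
  set E : Idem B := toIdem e he with hE
  let P : Idem A := p.sum (compl q)
  have h1 : K0.cls (E.sum (one B q.n)) = K0.cls (P.map f) := by
    have h2 : K0.cls (one B q.n) = K0.cls (q.map f) + K0.cls ((compl q).map f) := by
      rw [compl_map, ← cls_sum]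
      exact (cls_eq_of_equiv (equiv_compl (q.map f))).symm
    rw [cls_sum, h2, ← hz, Idem.map_sum, cls_sum]
    abel
  obtain ⟨r, hr⟩ := stab h1
  refine ⟨q.n + r + (p.n + q.n) + r, ?_⟩
  intro n n' hn hn'
  obtain ⟨t, rfl⟩ := Nat.exists_eq_add_of_le (show q.n + r ≤ n by omega)
  let Q : Idem A := (P.sum (one A r)).sum (one A t)
  obtain ⟨t', rfl⟩ := Nat.exists_eq_add_of_le (show p.n + q.n + r + t ≤ n' by omega)
  let Q' : Idem A := Q.sum (zr A t')
  -- the equivalence
  have e1 : (E.sum (one B (q.n + r + t))).Equiv (Q'.map f) := by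
    have a1 : (E.sum (one B (q.n + r + t))).Equiv
        (E.sum ((one B (q.n + r)).sum (one B t))) :=
      equiv_sum (equiv_refl E) (equiv_symm (equiv_one _ _))
    have a2 : (E.sum ((one B (q.n + r)).sum (one B t))).Equiv
        ((E.sum (one B (q.n + r))).sum (one B t)) := equiv_symm (equiv_assoc _ _ _)
    have a3 : (E.sum (one B (q.n + r))).Equiv ((E.sum (one B q.n)).sum (one B r)) :=
      equiv_trans (equiv_sum (equiv_refl E) (equiv_symm (equiv_one _ _)))
        (equiv_symm (equiv_assoc _ _ _))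
    have a4 : ((E.sum (one B (q.n + r))).sum (one B t)).Equiv (Q.map f) := by
      have : Q.map f = ((P.map f).sum (one B r)).sum (one B t) := by
        show ((P.sum (one A r)).sum (one A t)).map f = _
        rw [Idem.map_sum, Idem.map_sum, one_map, one_map]
      rw [this]
      exact equiv_sum (equiv_trans a3 hr) (equiv_refl _)
    exact equiv_trans a1 (equiv_trans a2 (equiv_trans a4 (Idem.map_equiv f (equiv_zr Q t'))))
  have he1 : fromBlocks e 0 0 (1 : Matrix (Fin (q.n + r + t)) (Fin (q.n + r + t)) B) *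
      fromBlocks e 0 0 1 = fromBlocks e 0 0 1 := idem_blocks he (one_mul 1)
  have e2 : MEq (fromBlocks e 0 0 (1 : Matrix (Fin (q.n + r + t)) (Fin (q.n + r + t)) B))
      (Q'.map f).e := by
    refine MEq.trans he1 (Q'.map f).idem ?_ e1
    refine MEq.trans he1 (E.sum (one B (q.n + r + t))).idem ?_ (sum_meq E (one B (q.n + r + t)))
    exact MEq.blocks (toIdem_meq he) (MEq.refl (one_mul 1))
  exact gconj_fin f he Q'.e Q'.idem e2

end Pool.Agent.NegK.TW.H89
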