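import Pool.Agent.Lib.MP_28303a_al.TW.Lemmas

/-! # LETT2: nilpotent matrices with transitions in one orbit of pairs -/

set_option autoImplicit false
set_option linter.unusedSectionVars false
set_option linter.unusedVariables false

namespace Pool.Agent.NegK.TW.H89

universe u v w

open Matrix MonoidAlgebra

section

variable {k : Type u} [Ring k] {Γ : Type u} [Group Γ] {J : Type} [Fintype J] [DecidableEq J]

/-- Nilpotency comes back along injective homomorphisms. -/
theorem nilp_of_map {A B : Type u} [Ring A] [Ring B] (f : A →+* B) (hf : Function.Injective f)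
    (m : Matrix J J A) (h : IsNilpotent (m.map f)) : IsNilpotent m := by
  obtain ⟨n, hn⟩ := h
  refine ⟨n, ?_⟩
  have h1 : (f.mapMatrix m) ^ n = 0 := hn
  rw [← map_pow] at h1
  ext1 i j
  have h2 := congrFun (congrFun h1 i) j
  have h3 : f ((m ^ n) i j) = 0 := h2
  exact hf (by rw [h3]; exact (map_zero f).symm)

theorem eq_zero_of_coeff {x : MonoidAlgebra k Γ} (h : ∀ g, x.coeff g ≠ 0 → False) : x = 0 := by
  ext g
  by_contra hc
  exact h g hc

/-- The diagonal matrix of group elements. -/
noncomputable def dmat (k : Type u) [Ring k] {Γ : Type u} [Group Γ] {J : Type} [DecidableEq J]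
    (g : J → Γ) : Matrix J J (MonoidAlgebra k Γ) := Matrix.diagonal fun j => single (g j) 1

theorem dmat_mul_inv (g : J → Γ) : dmat k g * dmat k (fun j => (g j)⁻¹) = 1 := by
  unfold dmat
  rw [Matrix.diagonal_mul_diagonal]
  simp only [MonoidAlgebra.single_mul_single, mul_inv_cancel, one_mul]
  exact Matrix.diagonal_one

theorem dmat_inv_mul (g : J → Γ) : dmat k (fun j => (g j)⁻¹) * dmat k g = 1 := by
  unfold dmat
  rw [Matrix.diagonal_mul_diagonal]
  simp only [MonoidAlgebra.single_mul_single, inv_mul_cancel, one_mul]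
  exact Matrix.diagonal_one

theorem coeff_conj (g g' : Γ) (x : MonoidAlgebra k Γ) (h : Γ)
    (hc : (single g⁻¹ (1 : k) * x * single g' (1 : k)).coeff h ≠ 0) :
    ∃ a, x.coeff a ≠ 0 ∧ h = g⁻¹ * a * g' := by
  obtain ⟨c, d, hc1, hd, rfl⟩ := coeff_mul_ne_zero hc
  obtain ⟨e, a, he, ha, rfl⟩ := coeff_mul_ne_zero hc1
  rw [coeff_single_ne he, coeff_single_ne hd]
  exact ⟨a, ha, rfl⟩

end

theorem lett2 (hD : DefoStatement.{u}) : Lett2Statement.{u} := by
  intro S k Γ D _ _ _ J _ _ dg a b m hst hm hnil hN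
  classical
  have hu : IsUnit (1 - m) := hnil.isUnit_one_sub
  by_cases hb : ∃ g : Γ, g • a = b
  · obtain ⟨g, hg⟩ := hb
    have hch : ∀ j, ∃ γ : Γ, (∃ x : Γ, x • a = dg j) → γ • a = dg j := by
      intro j
      by_cases h : ∃ x : Γ, x • a = dg j
      · obtain ⟨x, hx⟩ := h
        exact ⟨x, fun _ => hx⟩
      · exact ⟨1, fun h' => absurd h' h⟩
    choose γ hγ using hch
    let G : Subgroup Γ := MulAction.stabilizer Γ a ⊔ Subgroup.zpowers g
    let m' : Matrix J J (LG k Γ) :=
      dmat (LaurentPolynomial k) (fun j => (γ j)⁻¹) * m * dmat (LaurentPolynomial k) γ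
    have hsupp : MSupp (Set.range G.subtype) m' := by
      intro i j h hh
      have e1 : m' i j = single (γ i)⁻¹ (1 : LaurentPolynomial k) * m i j * single (γ j) 1 := by
        show (dmat (LaurentPolynomial k) (fun j => (γ j)⁻¹) * m *
          dmat (LaurentPolynomial k) γ) i j = _
        unfold dmat
        rw [Matrix.mul_diagonal, Matrix.diagonal_mul]
      rw [e1] at hh
      obtain ⟨c, hc, rfl⟩ := coeff_conj _ _ _ _ hh
      obtain ⟨x, hx1, hx2⟩ := hm i j c hc
      have hxj : (c⁻¹ * x * g) • a = dg j := by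
        rw [mul_smul, mul_smul, hg, hx2, inv_smul_smul]
      have g1 := hγ i ⟨x, hx1⟩
      have g2 := hγ j ⟨_, hxj⟩
      have s1 : (γ i)⁻¹ * x ∈ MulAction.stabilizer Γ a := by
        rw [MulAction.mem_stabilizer_iff, mul_smul, hx1, ← g1, inv_smul_smul]
      have s2 : g⁻¹ * x⁻¹ * c * γ j ∈ MulAction.stabilizer Γ a := by
        rw [MulAction.mem_stabilizer_iff, mul_smul, g2, ← hxj]
        simp only [mul_smul, smul_inv_smul, inv_smul_smul]
      have s3 : (γ i)⁻¹ * c * γ j = ((γ i)⁻¹ * x) * g * (g⁻¹ * x⁻¹ * c * γ j) := by group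
      have s4 : (γ i)⁻¹ * c * γ j ∈ G := by
        rw [s3]
        refine G.mul_mem (G.mul_mem (Subgroup.mem_sup_left s1)
          (Subgroup.mem_sup_right (Subgroup.mem_zpowers g))) (Subgroup.mem_sup_left s2)
      exact ⟨⟨_, s4⟩, rfl⟩
    obtain ⟨m₀, hm₀⟩ := hsupp.exists_map G.subtype_injective
    have hd1 : dmat (LaurentPolynomial k) (fun j => (γ j)⁻¹) * dmat (LaurentPolynomial k) γ = 1 :=
      dmat_inv_mul γ
    have hd2 : dmat (LaurentPolynomial k) γ * dmat (LaurentPolynomial k) (fun j => (γ j)⁻¹) = 1 :=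
      dmat_mul_inv γ
    have hpow : ∀ n, m' ^ n = dmat (LaurentPolynomial k) (fun j => (γ j)⁻¹) * m ^ n *
        dmat (LaurentPolynomial k) γ := by
      intro n
      induction n with
      | zero => rw [pow_zero, pow_zero, mul_one, hd1]
      | succ n ih =>
        rw [pow_succ, ih, pow_succ]
        show dmat (LaurentPolynomial k) (fun j => (γ j)⁻¹) * m ^ n *
          dmat (LaurentPolynomial k) γ * (dmat (LaurentPolynomial k) (fun j => (γ j)⁻¹) * m *
          dmat (LaurentPolynomial k) γ) = _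
        calc _ = dmat (LaurentPolynomial k) (fun j => (γ j)⁻¹) * m ^ n *
            (dmat (LaurentPolynomial k) γ * dmat (LaurentPolynomial k) (fun j => (γ j)⁻¹)) * m *
            dmat (LaurentPolynomial k) γ := by simp only [Matrix.mul_assoc]
          _ = _ := by rw [hd2, Matrix.mul_one]; simp only [Matrix.mul_assoc]
    have hnil' : IsNilpotent m' := by
      obtain ⟨n, hn⟩ := hnil
      exact ⟨n, by rw [hpow, hn, Matrix.mul_zero, Matrix.zero_mul]⟩
    have hnil₀ : IsNilpotent m₀ :=
      nilp_of_map (mdr (LaurentPolynomial k) G.subtype) (mdr_injective G.subtype_injective) m₀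
        (by rw [hm₀]; exact hnil')
    have h1 : (gdet S k G).val (1 - m₀) = 0 := hD S k G (hN g hg) J m₀ hnil₀
    have h2 := gdet_group S G.subtype (1 - m₀) hnil₀.isUnit_one_sub
    rw [h1, map_zero] at h2
    have h3 : (1 - m₀).map (mdr (LaurentPolynomial k) G.subtype) = 1 - m' := by
      rw [← hm₀]
      have e : (1 - m₀).map (mdr (LaurentPolynomial k) G.subtype) =
        (mdr (LaurentPolynomial k) G.subtype).mapMatrix (1 - m₀) := rfl
      rw [e, map_sub, map_one]
      rfl
    rw [h3] at h2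
    have h4 : 1 - m' = dmat (LaurentPolynomial k) (fun j => (γ j)⁻¹) * (1 - m) *
        dmat (LaurentPolynomial k) γ := by
      rw [Matrix.mul_sub, Matrix.sub_mul, Matrix.mul_one, hd1]
    rw [h4, (gdet S k Γ).val_conj hd1 hd2 hu] at h2
    exact h2
  · let p : Matrix J J (LG k Γ) := Matrix.diagonal fun j => if (∃ x : Γ, x • a = dg j) then 1 else 0
    have hpm : p * m = m := by
      ext1 i j
      show (Matrix.diagonal (fun j => if (∃ x : Γ, x • a = dg j) then (1 : LG k Γ) else 0) * m) i j = _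
      rw [Matrix.diagonal_mul]
      by_cases h : ∃ x : Γ, x • a = dg i
      · rw [if_pos h, one_mul]
      · rw [if_neg h, zero_mul]
        symm
        refine eq_zero_of_coeff fun h' hc => ?_
        obtain ⟨x, hx1, hx2⟩ := hm i j h' hc
        exact h ⟨x, hx1⟩
    have hmp : m * p = 0 := by
      ext1 i j
      show (m * Matrix.diagonal (fun j => if (∃ x : Γ, x • a = dg j) then (1 : LG k Γ) else 0)) i j = _
      rw [Matrix.mul_diagonal]
      by_cases h : ∃ x : Γ, x • a = dg j
      · rw [if_pos h, mul_one]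
        refine eq_zero_of_coeff fun h' hc => ?_
        obtain ⟨x, hx1, hx2⟩ := hm i j h' hc
        obtain ⟨y, hy⟩ := h
        exact hb ⟨x⁻¹ * h' * y, by rw [mul_smul, mul_smul, hy, ← hx2, inv_smul_smul]⟩
      · rw [if_neg h, mul_zero]
        rfl
    have e1 : 1 + (-p) * m = 1 - m := by rw [Matrix.neg_mul, hpm]; exact (sub_eq_add_neg _ _).symm
    have e2 : 1 + m * (-p) = (1 : Matrix J J (LG k Γ)) := by
      rw [Matrix.mul_neg, hmp, neg_zero, add_zero]
    have h1 := (gdet S k Γ).one_add_swap (X := -p) (Y := m) (by rw [e1]; exact hu)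
    rw [e1, e2, (gdet S k Γ).val_one] at h1
    exact h1.symm

end Pool.Agent.NegK.TW.H89
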